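import Mathlib

/-!
# Non-trivial continuous embeddings of minimal interval exchanges into planar piecewise isometries

For every `d ≥ 3` we construct a minimal `d`-IET (with the symmetric permutation and `d - 1` genuine
discontinuities) and a `d`-PWI of the whole plane together with a continuous embedding that is
neither linear nor an arc embedding.
-/

set_option autoImplicit false

open Set

namespace Pool.Agent.Results.MP_b9fb92_an.PolygonalArc

/-! ### Definitions -/

/-- The data of a `d`-interval exchange transformation: an irreducible permutation of the `d`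
indices (numbered from `0`) and `d` positive lengths. -/
structure IET (d : ℕ) where
  perm : Equiv.Perm (Fin d)
  len : Fin d → ℝ
  len_pos : ∀ j, 0 < len j
  irreducible : ∀ k : ℕ, 1 ≤ k → k < d →
    perm '' {j : Fin d | (j : ℕ) < k} ≠ {j : Fin d | (j : ℕ) < k}

namespace IET

variable {d : ℕ} (E : IET d)

/-- the left end point of the interval with index `j` -/
noncomputable def left (j : Fin d) : ℝ := ∑ k with k < j, E.len k

/-- the interval `I = [0, μ_0 + ... + μ_{d-1})` -/
def I : Set ℝ := Ico 0 (∑ k, E.len k)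

/-- the subinterval with index `j` -/
def Ij (j : Fin d) : Set ℝ := Ico (E.left j) (E.left j + E.len j)

/-- the translation `τ_j = ∑_{π k < π j} μ_k - ∑_{k < j} μ_k` -/
noncomputable def τ (j : Fin d) : ℝ :=
  (∑ k with E.perm k < E.perm j, E.len k) - ∑ k with k < j, E.len k

/-- the interval exchange map: `x ↦ x + τ_j` for `x` in the interval with index `j` -/
noncomputable def map (x : ℝ) : ℝ := x + ∑ j, (E.Ij j).indicator (fun _ => E.τ j) x

/-- every forward orbit is dense in `I` -/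
def IsMinimal : Prop := ∀ x ∈ E.I, E.I ⊆ closure {y | ∃ n : ℕ, y = E.map^[n] x}

end IET

/-- A planar orientation preserving piecewise isometry with `d` convex atoms: a partition of
`X ⊆ ℂ` into `d` nonempty convex atoms and a map `T : X → X` with
`T z = exp (i θ_j) z + λ_j` on the atom with index `j`. -/
structure PWI (d : ℕ) where
  X : Set ℂ
  atom : Fin d → Set ℂ
  nonempty : ∀ j, (atom j).Nonempty
  convex : ∀ j, Convex ℝ (atom j)
  disjoint : ∀ i j, i ≠ j → Disjoint (atom i) (atom j)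
  union : ⋃ j, atom j = X
  θ : Fin d → ℝ
  θ_mem : ∀ j, θ j ∈ Ico 0 (2 * Real.pi)
  lam : Fin d → ℂ
  T : ℂ → ℂ
  T_eq : ∀ j, ∀ z ∈ atom j, T z = Complex.exp (θ j * Complex.I) * z + lam j
  T_maps : MapsTo T X X

variable {d : ℕ}

/-- `h` is a piecewise continuous embedding of the interval exchange `E` into the piecewise
isometry `P`. -/
structure IsPiecewiseEmbedding (E : IET d) (P : PWI d) (h : ℝ → ℂ) : Prop where
  injOn : InjOn h E.I
  mapsTo : MapsTo h E.I P.X
  invariant : P.T '' (h '' E.I) = h '' E.I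
  homeo : ∀ j, Topology.IsEmbedding (fun x : E.Ij j => h x)
  atoms : ∃ σ : Equiv.Perm (Fin d), ∀ j, h '' E.Ij j ⊆ P.atom (σ j)
  conj : ∀ x ∈ E.I, h (E.map x) = P.T (h x)

/-- `h` is a continuous embedding: a piecewise continuous embedding that is continuous on all
of `I`. -/
structure IsContinuousEmbedding (E : IET d) (P : PWI d) (h : ℝ → ℂ) : Prop
    extends IsPiecewiseEmbedding E P h where
  cont : ContinuousOn h E.I

/-- linear embedding: `h x = z_j + v_j x` on the interval with index `j`, for all `j` -/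
def IsLinear (E : IET d) (h : ℝ → ℂ) : Prop :=
  ∃ z v : Fin d → ℂ, ∀ j, ∀ x ∈ E.Ij j, h x = z j + v j * x

/-- arc embedding: `h x = z_j + r_j exp (i (a_j x + b_j))` on the interval with index `j`,
for all `j` -/
def IsArc (E : IET d) (h : ℝ → ℂ) : Prop :=
  ∃ (z : Fin d → ℂ) (r a b : Fin d → ℝ), (∀ j, 0 < r j) ∧
    ∀ j, ∀ x ∈ E.Ij j, h x = z j + r j * Complex.exp (Complex.I * (a j * x + b j))

/-- an embedding is trivial if it is linear or arc -/
def IsTrivial (E : IET d) (h : ℝ → ℂ) : Prop := IsLinear E h ∨ IsArc E h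

/-! ### Interval exchanges with the symmetric permutation -/

section Sym

/-- sum of the lengths left of `j` -/
noncomputable def lft {n : ℕ} (ν : Fin n → ℝ) (j : Fin n) : ℝ := ∑ k with k < j, ν k

/-- sum of the lengths right of `j` -/
noncomputable def rgt {n : ℕ} (ν : Fin n → ℝ) (j : Fin n) : ℝ := ∑ k with j < k, ν k

/-- the interval exchange with the symmetric permutation -/
noncomputable def sm {n : ℕ} (ν : Fin n → ℝ) (x : ℝ) : ℝ :=
  x + ∑ j, (Ico (lft ν j) (lft ν j + ν j)).indicator (fun _ => rgt ν j - lft ν j) x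

lemma lft_zero {n : ℕ} (ν : Fin (n + 1) → ℝ) : lft ν 0 = 0 := by
  simp [lft]

lemma lft_succ {n : ℕ} (a : ℝ) (ν : Fin n → ℝ) (j : Fin n) :
    lft (Fin.cons a ν : Fin (n + 1) → ℝ) j.succ = a + lft ν j := by
  simp only [lft, Finset.sum_filter, Fin.sum_univ_succ]
  simp

lemma rgt_zero {n : ℕ} (a : ℝ) (ν : Fin n → ℝ) :
    rgt (Fin.cons a ν : Fin (n + 1) → ℝ) 0 = ∑ k, ν k := by
  simp only [rgt, Finset.sum_filter, Fin.sum_univ_succ]
  simp

lemma rgt_succ {n : ℕ} (a : ℝ) (ν : Fin n → ℝ) (j : Fin n) :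
    rgt (Fin.cons a ν : Fin (n + 1) → ℝ) j.succ = rgt ν j := by
  simp only [rgt, Finset.sum_filter, Fin.sum_univ_succ]
  simp

lemma lft_nonneg {n : ℕ} {ν : Fin n → ℝ} (hν : ∀ j, 0 < ν j) (j : Fin n) : 0 ≤ lft ν j :=
  Finset.sum_nonneg fun k _ => (hν k).le

lemma lft_add_le {n : ℕ} {ν : Fin n → ℝ} (hν : ∀ j, 0 < ν j) {i j : Fin n} (h : i < j) :
    lft ν i + ν i ≤ lft ν j := by
  classical
  have : lft ν i + ν i = ∑ k ∈ insert i (Finset.univ.filter (· < i)), ν k := by
    rw [Finset.sum_insert (by simp), lft, add_comm]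
  rw [this, lft]
  refine Finset.sum_le_sum_of_subset_of_nonneg ?_ fun k _ _ => (hν k).le
  intro k hk
  simp only [Finset.mem_insert, Finset.mem_filter, Finset.mem_univ, true_and] at hk ⊢
  rcases hk with rfl | hk
  · exact h
  · exact hk.trans h

lemma lft_add_le_sum {n : ℕ} {ν : Fin n → ℝ} (hν : ∀ j, 0 < ν j) (i : Fin n) :
    lft ν i + ν i ≤ ∑ k, ν k := by
  classical
  have : lft ν i + ν i = ∑ k ∈ insert i (Finset.univ.filter (· < i)), ν k := by
    rw [Finset.sum_insert (by simp), lft, add_comm]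
  rw [this]
  exact Finset.sum_le_sum_of_subset_of_nonneg (Finset.subset_univ _) fun k _ _ => (hν k).le

lemma cover {n : ℕ} : ∀ (ν : Fin n → ℝ) (x : ℝ), 0 ≤ x → x < ∑ k, ν k →
    ∃ j, x ∈ Ico (lft ν j) (lft ν j + ν j) := by
  induction n with
  | zero => intro ν x h0 h1; simp at h1; linarith
  | succ n ih =>
    intro ν x h0 h1
    obtain ⟨a, μ, rfl⟩ : ∃ (a : ℝ) (μ : Fin n → ℝ), ν = Fin.cons a μ :=
      ⟨ν 0, Fin.tail ν, (Fin.cons_self_tail ν).symm⟩
    by_cases h : x < a
    · exact ⟨0, by simp [lft_zero, h0, h]⟩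
    · push Not at h
      have h2 : x - a < ∑ k, μ k := by
        rw [Fin.sum_univ_succ] at h1
        simp only [Fin.cons_zero, Fin.cons_succ] at h1
        linarith
      obtain ⟨j, hj⟩ := ih μ (x - a) (by linarith) h2
      refine ⟨j.succ, ?_⟩
      rw [lft_succ, Fin.cons_succ]
      exact ⟨by linarith [hj.1], by linarith [hj.2]⟩

lemma sm_eq {n : ℕ} {ν : Fin n → ℝ} (hν : ∀ j, 0 < ν j) {j : Fin n} {x : ℝ}
    (hx : x ∈ Ico (lft ν j) (lft ν j + ν j)) : sm ν x = x + rgt ν j - lft ν j := by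
  rw [sm, Finset.sum_eq_single j, indicator_of_mem hx]
  · ring
  · intro i _ hij
    refine indicator_of_notMem (fun hi => ?_) _
    rcases lt_or_gt_of_ne hij with h | h
    · have := lft_add_le hν h
      linarith [hi.2, hx.1]
    · have := lft_add_le hν h
      linarith [hi.1, hx.2]
  · simp

lemma sm_cons_lt {n : ℕ} {a : ℝ} {ν : Fin n → ℝ} (ha : 0 < a) (hν : ∀ j, 0 < ν j) {x : ℝ}
    (h0 : 0 ≤ x) (h1 : x < a) : sm (Fin.cons a ν : Fin (n + 1) → ℝ) x = x + ∑ k, ν k := by
  have hc : ∀ j, 0 < (Fin.cons a ν : Fin (n + 1) → ℝ) j := by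
    intro j; refine Fin.cases ?_ ?_ j
    · simpa using ha
    · intro i; simpa using hν i
  rw [sm_eq hc (j := 0) (by simp [lft_zero, h0, h1]), lft_zero, rgt_zero]
  ring

lemma sm_cons_ge {n : ℕ} {a : ℝ} {ν : Fin n → ℝ} (ha : 0 < a) (hν : ∀ j, 0 < ν j) {x : ℝ}
    (h0 : a ≤ x) (h1 : x < a + ∑ k, ν k) :
    sm (Fin.cons a ν : Fin (n + 1) → ℝ) x = sm ν (x - a) := by
  have hc : ∀ j, 0 < (Fin.cons a ν : Fin (n + 1) → ℝ) j := by
    intro j; refine Fin.cases ?_ ?_ j
    · simpa using ha
    · intro i; simpa using hν i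
  obtain ⟨j, hj⟩ := cover ν (x - a) (by linarith) (by linarith)
  rw [sm_eq hν hj, sm_eq hc (j := j.succ), lft_succ, rgt_succ]
  · ring
  · rw [lft_succ, Fin.cons_succ]
    exact ⟨by linarith [hj.1], by linarith [hj.2]⟩

/-- a minimal bijection of `[0, s)` -/
def Good (F : ℝ → ℝ) (s : ℝ) : Prop :=
  MapsTo F (Ico 0 s) (Ico 0 s) ∧ SurjOn F (Ico 0 s) (Ico 0 s) ∧
    ∀ x ∈ Ico 0 s, ∀ y ∈ Ico 0 s, ∀ ε > 0, ∃ n : ℕ, |F^[n] x - y| < ε

/-- The tower of height `N + 1` over a minimal map is minimal. -/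
lemma good_tower {F G : ℝ → ℝ} {s : ℝ} (hs : 0 < s) (N : ℕ) (hF : Good F s)
    (h1 : ∀ x, 0 ≤ x → x < N * s → G x = x + s)
    (h2 : ∀ x, N * s ≤ x → x < N * s + s → G x = F (x - N * s)) :
    Good G (N * s + s) := by
  obtain ⟨hm, hsu, hd⟩ := hF
  have hNs : 0 ≤ N * s := by positivity
  have hit : ∀ i : ℕ, i ≤ N → ∀ u, 0 ≤ u → u < s → G^[i] u = u + i * s := by
    intro i
    induction i with
    | zero => intro _ u _ _; simp
    | succ i ih =>
      intro hi u hu0 hu1
      rw [Function.iterate_succ_apply', ih (by omega) u hu0 hu1, h1]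
      · push_cast; ring
      · positivity
      · have : ((i : ℝ) + 1) ≤ N := by exact_mod_cast hi
        nlinarith
  have hret : ∀ u, 0 ≤ u → u < s → G^[N + 1] u = F u := by
    intro u hu0 hu1
    rw [Function.iterate_succ_apply', hit N le_rfl u hu0 hu1, h2]
    · congr 1; ring
    · linarith
    · linarith
  have hretn : ∀ n : ℕ, ∀ u ∈ Ico 0 s, G^[(N + 1) * n] u = F^[n] u ∧ F^[n] u ∈ Ico 0 s := by
    intro n
    induction n with
    | zero => intro u hu; simpa using hu
    | succ n ih =>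
      intro u hu
      obtain ⟨e1, e2⟩ := ih u hu
      rw [Nat.mul_succ, add_comm, Function.iterate_add_apply, e1, hret _ e2.1 e2.2,
        Function.iterate_succ_apply']
      exact ⟨rfl, hm e2⟩
  have hdec : ∀ x ∈ Ico 0 (N * s + s), ∃ i : ℕ, i ≤ N ∧ ∃ u ∈ Ico 0 s, x = u + i * s := by
    intro x hx
    refine ⟨⌊x / s⌋₊, ?_, x - ⌊x / s⌋₊ * s, ⟨?_, ?_⟩, by ring⟩
    · have : x / s < N + 1 := by
        rw [div_lt_iff₀ hs]; linarith [hx.2]
      have h3 : (⌊x / s⌋₊ : ℝ) ≤ x / s := Nat.floor_le (div_nonneg hx.1 hs.le)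
      have : (⌊x / s⌋₊ : ℝ) < N + 1 := by linarith
      have : ⌊x / s⌋₊ < N + 1 := by exact_mod_cast this
      omega
    · have h3 : (⌊x / s⌋₊ : ℝ) ≤ x / s := Nat.floor_le (div_nonneg hx.1 hs.le)
      rw [le_div_iff₀ hs] at h3
      linarith
    · have h3 : x / s < ⌊x / s⌋₊ + 1 := Nat.lt_floor_add_one _
      rw [div_lt_iff₀ hs] at h3
      linarith
  refine ⟨?_, ?_, ?_⟩
  · intro x hx
    by_cases h : x < N * s
    · rw [h1 x hx.1 h]
      exact ⟨by linarith [hx.1], by linarith⟩
    · push Not at h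
      rw [h2 x h hx.2]
      have := hm (show x - N * s ∈ Ico 0 s from ⟨by linarith, by linarith [hx.2]⟩)
      exact ⟨this.1, by linarith [this.2]⟩
  · intro y hy
    by_cases h : y < s
    · obtain ⟨u, hu, rfl⟩ := hsu ⟨hy.1, h⟩
      refine ⟨u + N * s, ⟨by linarith [hu.1], by linarith [hu.2]⟩, ?_⟩
      rw [h2 _ (by linarith [hu.1]) (by linarith [hu.2])]
      congr 1; ring
    · push Not at h
      refine ⟨y - s, ⟨by linarith, by linarith [hy.2]⟩, ?_⟩
      rw [h1 _ (by linarith) (by linarith [hy.2])]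
      ring
  · intro x hx y hy ε hε
    obtain ⟨i, hi, u, hu, rfl⟩ := hdec x hx
    obtain ⟨j, hj, v, hv, rfl⟩ := hdec y hy
    obtain ⟨n, hn⟩ := hd (F u) (hm hu) v hv ε hε
    refine ⟨j + ((N + 1) * n + (N + 1 - i)), ?_⟩
    have e1 : G^[N + 1 - i] (u + i * s) = F u := by
      rw [← hit i hi u hu.1 hu.2, ← Function.iterate_add_apply,
        Nat.sub_add_cancel (by omega), hret u hu.1 hu.2]
    obtain ⟨e2, e3⟩ := hretn n (F u) (hm hu)
    rw [Function.iterate_add_apply, Function.iterate_add_apply, e1, e2,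
      hit j hj _ e3.1 e3.2]
    simpa using hn

/-- The irrational rotation. -/
lemma good_rotation {α : ℝ} (hα : Irrational α) (h0 : 0 < α) (h1 : α < 1) :
    Good (sm ![1 - α, α]) 1 := by
  have hpos : ∀ j, 0 < (![1 - α, α] : Fin 2 → ℝ) j := by
    intro j; fin_cases j
    · simpa using h1
    · simpa using h0
  have hsum : ∑ k, (![1 - α, α] : Fin 2 → ℝ) k = 1 := by simp
  have hl0 : lft (![1 - α, α] : Fin 2 → ℝ) 0 = 0 := lft_zero _
  have hl1 : lft (![1 - α, α] : Fin 2 → ℝ) 1 = 1 - α := by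
    simp [lft, Finset.sum_filter]
  have hr0 : rgt (![1 - α, α] : Fin 2 → ℝ) 0 = α := by
    simp [rgt, Finset.sum_filter, Fin.sum_univ_two]
  have hr1 : rgt (![1 - α, α] : Fin 2 → ℝ) 1 = 0 := by
    simp [rgt, Finset.sum_filter, Fin.sum_univ_two]
  have hf0 : ∀ x, 0 ≤ x → x < 1 - α → sm ![1 - α, α] x = x + α := by
    intro x hx hx'
    rw [sm_eq hpos (j := 0) (by rw [hl0]; exact ⟨hx, by simpa using hx'⟩), hl0, hr0]
    ring
  have hf1 : ∀ x, 1 - α ≤ x → x < 1 → sm ![1 - α, α] x = x + α - 1 := by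
    intro x hx hx'
    rw [sm_eq hpos (j := 1) (by rw [hl1]; exact ⟨hx, by simpa using hx'⟩), hl1, hr1]
    ring
  have hfr : ∀ x ∈ Ico (0 : ℝ) 1, sm ![1 - α, α] x = Int.fract (x + α) := by
    intro x hx
    by_cases h : x < 1 - α
    · rw [hf0 x hx.1 h, eq_comm, Int.fract_eq_iff]
      exact ⟨by linarith [hx.1], by linarith, 0, by simp⟩
    · push Not at h
      rw [hf1 x h hx.2, eq_comm, Int.fract_eq_iff]
      exact ⟨by linarith, by linarith [hx.2], 1, by push_cast; ring⟩
  have hit : ∀ n : ℕ, ∀ x ∈ Ico (0 : ℝ) 1, (sm ![1 - α, α])^[n] x = Int.fract (x + n * α) := by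
    intro n
    induction n with
    | zero =>
      intro x hx
      simp only [Function.iterate_zero, id_eq, Nat.cast_zero, zero_mul, add_zero]
      exact (Int.fract_eq_self.2 hx).symm
    | succ n ih =>
      intro x hx
      rw [Function.iterate_succ_apply', ih x hx,
        hfr _ ⟨Int.fract_nonneg _, Int.fract_lt_one _⟩]
      rw [Int.fract_eq_fract]
      refine ⟨-⌊x + n * α⌋, ?_⟩
      rw [Int.fract]; push_cast; ring
  refine ⟨?_, ?_, ?_⟩
  · intro x hx
    rw [hfr x hx]
    exact ⟨Int.fract_nonneg _, Int.fract_lt_one _⟩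
  · intro y hy
    by_cases h : α ≤ y
    · exact ⟨y - α, ⟨by linarith, by linarith [hy.2]⟩, by
        rw [hf0 _ (by linarith) (by linarith [hy.2])]; ring⟩
    · push Not at h
      exact ⟨y - α + 1, ⟨by linarith [hy.1], by linarith⟩, by
        rw [hf1 _ (by linarith [hy.1]) (by linarith)]; ring⟩
  · intro x hx y hy ε hε
    have hdense : DenseRange (fun n : ℕ => n • ((α : ℝ) : AddCircle (1 : ℝ))) := by
      have h3 : DenseRange (fun n : ℤ => n • ((α : ℝ) : AddCircle (1 : ℝ))) := by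
        rw [AddCircle.denseRange_zsmul_coe_iff]
        simpa using hα
      exact denseRange_zsmul_iff_nsmul.1 h3
    set U : Set ℝ := Ioo (y - x) (min (y + ε) 1 - x) with hU
    have hUo : IsOpen ((fun t : ℝ => (t : AddCircle (1 : ℝ))) '' U) :=
      QuotientAddGroup.isOpenMap_coe _ isOpen_Ioo
    have hUn : ((fun t : ℝ => (t : AddCircle (1 : ℝ))) '' U).Nonempty := by
      refine Set.Nonempty.image _ (nonempty_Ioo.2 ?_)
      have : y < min (y + ε) 1 := lt_min (by linarith) hy.2
      linarith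
    obtain ⟨n, hn⟩ := hdense.exists_mem_open hUo hUn
    obtain ⟨t, ht, hte⟩ := hn
    refine ⟨n, ?_⟩
    have h4 : ((t : ℝ) : AddCircle (1 : ℝ)) = ((n * α : ℝ) : AddCircle (1 : ℝ)) := by
      have h5 : ((n * α : ℝ) : AddCircle (1 : ℝ)) = n • ((α : ℝ) : AddCircle (1 : ℝ)) := by
        rw [← AddCircle.coe_nsmul, nsmul_eq_mul]
      rw [h5]; exact hte
    obtain ⟨m, hm⟩ := AddSubgroup.mem_zmultiples_iff.1 (QuotientAddGroup.eq.1 h4)
    rw [hit n x hx]
    have h6 : Int.fract (x + n * α) = x + t := by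
      rw [Int.fract_eq_iff]
      have h7 : t < min (y + ε) 1 - x := ht.2
      have h8 : min (y + ε) 1 ≤ 1 := min_le_right _ _
      refine ⟨by linarith [ht.1, hy.1], by linarith, m, ?_⟩
      simp only [zsmul_eq_mul, mul_one] at hm
      linarith
    rw [h6, abs_lt]
    have h7 : t < min (y + ε) 1 - x := ht.2
    have h8 : min (y + ε) 1 ≤ y + ε := min_le_left _ _
    exact ⟨by linarith [ht.1], by linarith⟩

/-- the lengths `2 ^ (n - 1), ..., 2, 1, 1 - α, α`, of sum `2 ^ n` -/
noncomputable def lens (α : ℝ) : (n : ℕ) → Fin (n + 2) → ℝ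
  | 0 => ![1 - α, α]
  | n + 1 => Fin.cons (2 ^ n) (lens α n)

lemma lens_pos {α : ℝ} (h0 : 0 < α) (h1 : α < 1) : ∀ (n : ℕ) (j : Fin (n + 2)), 0 < lens α n j
  | 0, j => by
    fin_cases j
    · simpa [lens] using h1
    · simpa [lens] using h0
  | n + 1, j => by
    refine Fin.cases ?_ ?_ j
    · simp [lens]
    · intro i
      simpa [lens] using lens_pos h0 h1 n i

lemma lens_sum (α : ℝ) : ∀ n : ℕ, ∑ j, lens α n j = 2 ^ n
  | 0 => by simp [lens]
  | n + 1 => by
    rw [Fin.sum_univ_succ]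
    simp only [lens, Fin.cons_zero, Fin.cons_succ]
    rw [lens_sum α n]
    ring

lemma lens_good {α : ℝ} (hα : Irrational α) (h0 : 0 < α) (h1 : α < 1) :
    ∀ n : ℕ, Good (sm (lens α n)) (2 ^ n)
  | 0 => by simpa [lens] using good_rotation hα h0 h1
  | n + 1 => by
    have h := good_tower (F := sm (lens α n)) (G := sm (lens α (n + 1))) (s := 2 ^ n)
      (by positivity) 1 (lens_good hα h0 h1 n) ?_ ?_
    · have e : ((1 : ℕ) : ℝ) * 2 ^ n + 2 ^ n = 2 ^ (n + 1) := by push_cast; ring
      rwa [e] at h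
    · intro x hx hx'
      simp only [Nat.cast_one, one_mul] at hx'
      simp only [lens]
      rw [sm_cons_lt (by positivity) (lens_pos h0 h1 n) hx hx', lens_sum]
    · intro x hx hx'
      simp only [Nat.cast_one, one_mul] at hx hx' ⊢
      simp only [lens]
      exact sm_cons_ge (by positivity) (lens_pos h0 h1 n) hx (by rwa [lens_sum])

/-- the lengths `2 ^ (n + 1), 2 ^ (n - 1), ..., 2, 1, 1 - α, α`, of sum `3 * 2 ^ n` -/
noncomputable def lenv (α : ℝ) (n : ℕ) : Fin (n + 3) → ℝ := Fin.cons (2 * 2 ^ n) (lens α n)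

lemma lenv_pos {α : ℝ} (h0 : 0 < α) (h1 : α < 1) (n : ℕ) (j : Fin (n + 3)) :
    0 < lenv α n j := by
  refine Fin.cases ?_ ?_ j
  · simp [lenv]
  · intro i
    simpa [lenv] using lens_pos h0 h1 n i

lemma lenv_sum (α : ℝ) (n : ℕ) : ∑ j, lenv α n j = 3 * 2 ^ n := by
  rw [Fin.sum_univ_succ]
  simp only [lenv, Fin.cons_zero, Fin.cons_succ]
  rw [lens_sum α n]
  ring

lemma sm_lenv_lt {α : ℝ} (h0 : 0 < α) (h1 : α < 1) (n : ℕ) {x : ℝ} (hx : 0 ≤ x)
    (hx' : x < 2 * 2 ^ n) : sm (lenv α n) x = x + 2 ^ n := by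
  rw [lenv, sm_cons_lt (by positivity) (lens_pos h0 h1 n) hx hx', lens_sum]

lemma sm_lenv_ge {α : ℝ} (h0 : 0 < α) (h1 : α < 1) (n : ℕ) {x : ℝ} (hx : 2 * 2 ^ n ≤ x)
    (hx' : x < 3 * 2 ^ n) : sm (lenv α n) x = sm (lens α n) (x - 2 * 2 ^ n) := by
  rw [lenv, sm_cons_ge (by positivity) (lens_pos h0 h1 n) hx (by rw [lens_sum]; linarith)]

lemma lenv_good {α : ℝ} (hα : Irrational α) (h0 : 0 < α) (h1 : α < 1) (n : ℕ) :
    Good (sm (lenv α n)) (3 * 2 ^ n) := by
  have h := good_tower (F := sm (lens α n)) (G := sm (lenv α n)) (s := 2 ^ n)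
    (by positivity) 2 (lens_good hα h0 h1 n) ?_ ?_
  · have e : ((2 : ℕ) : ℝ) * 2 ^ n + 2 ^ n = 3 * 2 ^ n := by push_cast; ring
    rwa [e] at h
  · intro x hx hx'
    push_cast at hx'
    exact sm_lenv_lt h0 h1 n hx hx'
  · intro x hx hx'
    push_cast at hx hx' ⊢
    exact sm_lenv_ge h0 h1 n hx (by linarith)

end Sym

/-! ### The interval exchange -/

/-- the interval exchange with the symmetric permutation and given lengths -/
def symIET {d : ℕ} (ν : Fin d → ℝ) (hν : ∀ j, 0 < ν j) : IET d where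
  perm := Fin.revPerm
  len := ν
  len_pos := hν
  irreducible := by
    intro k hk hkd h
    have h1 : (⟨d - 1, by omega⟩ : Fin d) ∈ (Fin.revPerm : Equiv.Perm (Fin d)) ''
        {j : Fin d | (j : ℕ) < k} := by
      refine ⟨⟨0, by omega⟩, ?_, ?_⟩
      · show 0 < k
        omega
      · ext
        simp [Fin.val_rev]
    rw [h] at h1
    have h2 : d - 1 < k := h1
    omega

lemma symIET_left {d : ℕ} (ν : Fin d → ℝ) (hν : ∀ j, 0 < ν j) (j : Fin d) :
    (symIET ν hν).left j = lft ν j := rfl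

lemma symIET_τ {d : ℕ} (ν : Fin d → ℝ) (hν : ∀ j, 0 < ν j) (j : Fin d) :
    (symIET ν hν).τ j = rgt ν j - lft ν j := by
  simp [symIET, IET.τ, rgt, lft]

lemma symIET_map {d : ℕ} (ν : Fin d → ℝ) (hν : ∀ j, 0 < ν j) :
    (symIET ν hν).map = sm ν := by
  funext x
  simp only [IET.map, symIET_τ, sm, IET.Ij, symIET_left]
  rfl

lemma symIET_minimal {d : ℕ} (ν : Fin d → ℝ) (hν : ∀ j, 0 < ν j) (hg : Good (sm ν) (∑ k, ν k)) :
    (symIET ν hν).IsMinimal := by
  intro x hx y hy
  rw [Metric.mem_closure_iff]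
  intro ε hε
  obtain ⟨n, hn⟩ := hg.2.2 x hx y hy ε hε
  refine ⟨_, ⟨n, rfl⟩, ?_⟩
  rw [symIET_map, dist_comm, Real.dist_eq]
  exact hn

/-- all interior end points are discontinuities -/
lemma symIET_disc {d : ℕ} (ν : Fin d → ℝ) (hν : ∀ j, 0 < ν j) (j : Fin d) (hj : 0 < (j : ℕ)) :
    ¬ ContinuousAt (symIET ν hν).map ((symIET ν hν).left j) := by
  rw [symIET_map, symIET_left]
  intro hc
  set i : Fin d := ⟨j - 1, by omega⟩ with hi
  have hij : i < j := by
    rw [Fin.lt_def]; simp only [hi]; omega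
  have hl : lft ν j = lft ν i + ν i := by
    classical
    have : lft ν i + ν i = ∑ k ∈ insert i (Finset.univ.filter (· < i)), ν k := by
      rw [Finset.sum_insert (by simp), lft, add_comm]
    rw [this, lft]
    congr 1
    ext k
    simp only [Finset.mem_filter, Finset.mem_univ, true_and, Finset.mem_insert, Fin.lt_def,
      Fin.ext_iff, hi]
    omega
  have hr : rgt ν i = rgt ν j + ν j := by
    classical
    have : rgt ν j + ν j = ∑ k ∈ insert j (Finset.univ.filter (j < ·)), ν k := by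
      rw [Finset.sum_insert (by simp), rgt, add_comm]
    rw [this, rgt]
    congr 1
    ext k
    simp only [Finset.mem_filter, Finset.mem_univ, true_and, Finset.mem_insert, Fin.lt_def,
      Fin.ext_iff, hi]
    omega
  have h1 : Filter.Tendsto (sm ν) (nhdsWithin (lft ν j) (Iio (lft ν j)))
      (nhds (lft ν j + rgt ν i - lft ν i)) := by
    have h2 : Filter.Tendsto (fun x => x + rgt ν i - lft ν i)
        (nhdsWithin (lft ν j) (Iio (lft ν j))) (nhds (lft ν j + rgt ν i - lft ν i)) :=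
      ((continuous_id.add continuous_const).sub continuous_const).continuousAt.continuousWithinAt
    refine h2.congr' ?_
    have h3 : Ioo (lft ν i) (lft ν j) ∈ nhdsWithin (lft ν j) (Iio (lft ν j)) :=
      Ioo_mem_nhdsLT (by rw [hl]; linarith [hν i])
    filter_upwards [h3] with x hx
    exact (sm_eq hν ⟨hx.1.le, by rw [← hl]; exact hx.2⟩).symm
  have h2 : Filter.Tendsto (sm ν) (nhdsWithin (lft ν j) (Iio (lft ν j)))
      (nhds (sm ν (lft ν j))) := hc.continuousWithinAt
  have h3 := tendsto_nhds_unique h1 h2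
  rw [sm_eq hν (j := j) ⟨le_rfl, by linarith [hν j]⟩] at h3
  linarith [hν i, hν j]

/-! ### The polygonal arc -/

section Arc

/-- the real part of the polygonal arc -/
noncomputable def rho (L β x : ℝ) : ℝ :=
  Real.cos β * min x L + min (max (x - L) 0) L + Real.cos β * max (x - 2 * L) 0

/-- the polygonal arc with three sides of length `L` and directions `-β, 0, β`
(the outer sides are prolonged) -/
noncomputable def arc (L β x : ℝ) : ℂ :=
  Complex.exp (-(β * Complex.I)) * (min x L : ℝ) + (min (max (x - L) 0) L : ℝ) +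
    Complex.exp (β * Complex.I) * (max (x - 2 * L) 0 : ℝ)

lemma arc_re (L β x : ℝ) : (arc L β x).re = rho L β x := by
  simp only [arc, rho, Complex.add_re, Complex.mul_re, Complex.ofReal_re, Complex.ofReal_im,
    mul_zero, sub_zero]
  rw [← neg_mul, ← Complex.ofReal_neg, Complex.exp_ofReal_mul_I_re, Complex.exp_ofReal_mul_I_re,
    Real.cos_neg]

lemma continuous_arc (L β : ℝ) : Continuous (arc L β) := by
  unfold arc
  fun_prop

lemma continuous_rho (L β : ℝ) : Continuous (rho L β) := by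
  unfold rho
  fun_prop

variable {L β : ℝ}

lemma cos_pos' (hβ0 : 0 < β) (hβ1 : β < Real.pi / 2) : 0 < Real.cos β :=
  Real.cos_pos_of_mem_Ioo ⟨by linarith, hβ1⟩

lemma strictMono_rho (hL : 0 < L) (hc : 0 < Real.cos β) : StrictMono (rho L β) := by
  intro x y hxy
  have m1 : min x L ≤ min y L := min_le_min_right _ hxy.le
  have m2 : min (max (x - L) 0) L ≤ min (max (y - L) 0) L :=
    min_le_min_right _ (max_le_max_right _ (by linarith))
  have m3 : max (x - 2 * L) 0 ≤ max (y - 2 * L) 0 := max_le_max_right _ (by linarith)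
  have n1 := mul_le_mul_of_nonneg_left m1 hc.le
  have n3 := mul_le_mul_of_nonneg_left m3 hc.le
  unfold rho
  by_cases h1 : x < L
  · have : min x L < min y L := by
      rw [min_eq_left h1.le]
      exact lt_min hxy h1
    have := mul_lt_mul_of_pos_left this hc
    linarith
  · push Not at h1
    by_cases h2 : x < 2 * L
    · have : min (max (x - L) 0) L < min (max (y - L) 0) L := by
        rw [max_eq_left (by linarith), max_eq_left (by linarith), min_eq_left (by linarith)]
        exact lt_min (by linarith) (by linarith)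
      linarith
    · push Not at h2
      have : max (x - 2 * L) 0 < max (y - 2 * L) 0 := by
        rw [max_eq_left (by linarith), max_eq_left (by linarith)]
        linarith
      have := mul_lt_mul_of_pos_left this hc
      linarith

lemma surjective_rho (hL : 0 < L) (hc : 0 < Real.cos β) : Function.Surjective (rho L β) := by
  intro r
  have h := mem_range_of_exists_le_of_exists_ge (continuous_rho L β) (c := r) ?_ ?_
  · exact h
  · refine ⟨min (r / Real.cos β) 0, ?_⟩
    have h0 : min (r / Real.cos β) 0 ≤ 0 := min_le_right _ _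
    have h1 : min (r / Real.cos β) 0 ≤ r / Real.cos β := min_le_left _ _
    rw [le_div_iff₀ hc] at h1
    rw [rho, min_eq_left (by linarith : min (r / Real.cos β) 0 ≤ L),
      max_eq_right (by linarith), max_eq_right (by linarith), min_eq_left hL.le]
    linarith
  · refine ⟨2 * L + max r 0 / Real.cos β, ?_⟩
    have h0 : 0 ≤ max r 0 / Real.cos β := div_nonneg (le_max_right _ _) hc.le
    have h1 : Real.cos β * (max r 0 / Real.cos β) = max r 0 := by field_simp
    have h2 : r ≤ max r 0 := le_max_left _ _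
    rw [rho, min_eq_right (by linarith), max_eq_left (by linarith), min_eq_right (by linarith),
      max_eq_left (by linarith), show 2 * L + max r 0 / Real.cos β - 2 * L =
        max r 0 / Real.cos β by ring, h1]
    have := mul_pos hc hL
    linarith

lemma isEmbedding_arc (hL : 0 < L) (hc : 0 < Real.cos β) : Topology.IsEmbedding (arc L β) := by
  have h1 : Topology.IsEmbedding (rho L β) := by
    refine (strictMono_rho hL hc).isEmbedding_of_ordConnected ?_
    rw [(surjective_rho hL hc).range_eq]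
    exact ordConnected_univ
  have h2 : rho L β = Complex.re ∘ arc L β := by
    funext x; exact (arc_re L β x).symm
  rw [h2] at h1
  exact Topology.IsEmbedding.of_comp (continuous_arc L β) Complex.continuous_re h1

lemma arc_first (hL : 0 < L) {x : ℝ} (hx : x ≤ L) :
    arc L β x = Complex.exp (-(β * Complex.I)) * x := by
  rw [arc, min_eq_left hx, max_eq_right (by linarith), max_eq_right (by linarith),
    min_eq_left hL.le]
  simp

lemma arc_second {x : ℝ} (hx : L ≤ x) (hx' : x ≤ 2 * L) :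
    arc L β x = Complex.exp (-(β * Complex.I)) * L + (x - L) := by
  rw [arc, min_eq_right hx, max_eq_left (by linarith), max_eq_right (by linarith),
    min_eq_left (by linarith)]
  simp

lemma arc_third (_hL : 0 < L) {x : ℝ} (hx : 2 * L ≤ x) :
    arc L β x = Complex.exp (-(β * Complex.I)) * L + L +
      Complex.exp (β * Complex.I) * (x - 2 * L) := by
  rw [arc, min_eq_right (by linarith), max_eq_left (by linarith), max_eq_left (by linarith),
    min_eq_right (by linarith)]
  simp

lemma exp_mul_exp_neg (β : ℝ) :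
    Complex.exp (β * Complex.I) * Complex.exp (-(β * Complex.I)) = 1 := by
  rw [← Complex.exp_add]; simp

end Arc

/-! ### The piecewise isometry -/

section Pwi

variable {d : ℕ}

/-- the partition of the line extending the partition of `I` -/
def JJ (ν : Fin d → ℝ) (j : Fin d) : Set ℝ :=
  {t | (0 < (j : ℕ) → lft ν j ≤ t) ∧ ((j : ℕ) + 1 < d → t < lft ν j + ν j)}

lemma JJ_ordConnected (ν : Fin d → ℝ) (j : Fin d) : (JJ ν j).OrdConnected := by
  refine ⟨fun x hx y hy t ht => ⟨fun h => (hx.1 h).trans ht.1, fun h => ht.2.trans_lt (hy.2 h)⟩⟩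

lemma JJ_disjoint {ν : Fin d → ℝ} (hν : ∀ j, 0 < ν j) {i j : Fin d} (hij : i < j) {t : ℝ}
    (h1 : t ∈ JJ ν i) (h2 : t ∈ JJ ν j) : False := by
  have h3 := lft_add_le hν hij
  have h4 := h1.2 (by have := Fin.lt_def.1 hij; omega)
  have h5 := h2.1 (by have := Fin.lt_def.1 hij; omega)
  linarith

lemma JJ_cover (ν : Fin (d + 1) → ℝ) (hν : ∀ j, 0 < ν j) (t : ℝ) : ∃ j, t ∈ JJ ν j := by
  by_cases h0 : t < 0
  · refine ⟨0, fun h => absurd h (by simp), fun _ => ?_⟩
    rw [lft_zero]
    linarith [hν 0]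
  · push Not at h0
    by_cases h1 : t < ∑ k, ν k
    · obtain ⟨j, hj⟩ := cover ν t h0 h1
      exact ⟨j, fun _ => hj.1, fun _ => hj.2⟩
    · push Not at h1
      refine ⟨Fin.last d, fun _ => ?_, fun h => absurd h (by simp)⟩
      have := lft_add_le_sum hν (Fin.last d)
      linarith [hν (Fin.last d)]

lemma Ij_subset_JJ (ν : Fin d → ℝ) (j : Fin d) :
    Ico (lft ν j) (lft ν j + ν j) ⊆ JJ ν j := fun _ hx => ⟨fun _ => hx.1, fun _ => hx.2⟩

/-- the atoms: vertical strips -/
def strip (ν : Fin d → ℝ) (L β : ℝ) (j : Fin d) : Set ℂ := {z | z.re ∈ rho L β '' JJ ν j}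

lemma strip_convex (ν : Fin d → ℝ) (L β : ℝ) (j : Fin d) : Convex ℝ (strip ν L β j) := by
  have h1 : Convex ℝ (rho L β '' JJ ν j) :=
    (((JJ_ordConnected ν j).isPreconnected).image _ (continuous_rho L β).continuousOn).convex
  exact h1.is_linear_preimage (f := Complex.re) ⟨by simp, by simp⟩

/-- the rotation angles -/
noncomputable def ang (β : ℝ) (j : Fin d) : ℝ := if (j : ℕ) = 0 then β else 2 * Real.pi - 2 * β

/-- the translations -/
noncomputable def trn (ν : Fin d → ℝ) (L β : ℝ) (j : Fin d) : ℂ :=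
  if (j : ℕ) = 0 then Complex.exp (-(β * Complex.I)) * L
  else Complex.exp (-(β * Complex.I)) * (rgt ν j - lft ν j : ℝ)
    + 2 * Complex.exp (-(β * Complex.I)) * L - Complex.exp (-(β * Complex.I)) ^ 3 * L
    - Complex.exp (-(β * Complex.I)) ^ 2 * L

open Classical in
/-- the piecewise isometry of the plane -/
noncomputable def pwi (ν : Fin (d + 1) → ℝ) (hν : ∀ j, 0 < ν j) (L β : ℝ) (hL : 0 < L)
    (hβ0 : 0 < β) (hβ1 : β < Real.pi / 2) : PWI (d + 1) where
  X := univ
  atom := strip ν L β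
  nonempty j := by
    refine ⟨(rho L β (lft ν j) : ℝ), ?_⟩
    show ((rho L β (lft ν j) : ℝ) : ℂ).re ∈ rho L β '' JJ ν j
    rw [Complex.ofReal_re]
    exact ⟨lft ν j, Ij_subset_JJ ν j ⟨le_rfl, by linarith [hν j]⟩, rfl⟩
  convex := strip_convex ν L β
  disjoint := by
    intro i j hij
    rw [Set.disjoint_left]
    rintro z ⟨t, ht, e1⟩ ⟨t', ht', e2⟩
    have : t = t' := (strictMono_rho hL (cos_pos' hβ0 hβ1)).injective (e1.trans e2.symm)
    subst this
    rcases lt_or_gt_of_ne hij with h | h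
    · exact JJ_disjoint hν h ht ht'
    · exact JJ_disjoint hν h ht' ht
  union := by
    refine eq_univ_of_forall fun z => ?_
    obtain ⟨t, ht⟩ := surjective_rho hL (cos_pos' hβ0 hβ1) z.re
    obtain ⟨j, hj⟩ := JJ_cover ν hν t
    exact mem_iUnion.2 ⟨j, t, hj, ht⟩
  θ := ang β
  θ_mem := by
    intro j
    have := Real.pi_pos
    unfold ang
    split_ifs
    · exact ⟨hβ0.le, by linarith⟩
    · exact ⟨by linarith, by linarith⟩
  lam := trn ν L β
  T := fun z => if h : ∃ j, z ∈ strip ν L β j then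
    Complex.exp (ang β h.choose * Complex.I) * z + trn ν L β h.choose else z
  T_eq := by
    intro j z hz
    have h : ∃ j, z ∈ strip ν L β j := ⟨j, hz⟩
    have hj : h.choose = j := by
      by_contra hne
      obtain ⟨t, ht, e1⟩ := h.choose_spec
      obtain ⟨t', ht', e2⟩ := hz
      have : t = t' := (strictMono_rho hL (cos_pos' hβ0 hβ1)).injective (e1.trans e2.symm)
      subst this
      rcases lt_or_gt_of_ne hne with h | h
      · exact JJ_disjoint hν h ht ht'
      · exact JJ_disjoint hν h ht' ht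
    simp only [dif_pos h, hj]
  T_maps := fun _ _ => mem_univ _

end Pwi

/-! ### The embedding -/

section Main

variable {α β : ℝ} (hα : Irrational α) (h0 : 0 < α) (h1 : α < 1) (hβ0 : 0 < β)
  (hβ1 : β < Real.pi / 2) (n : ℕ)

include hα hβ0 hβ1 in
lemma embedding : IsContinuousEmbedding (symIET (lenv α n) (lenv_pos h0 h1 n))
    (pwi (lenv α n) (lenv_pos h0 h1 n) (2 ^ n) β (by positivity) hβ0 hβ1) (arc (2 ^ n) β) := by
  set E := symIET (lenv α n) (lenv_pos h0 h1 n) with hE
  set P := pwi (lenv α n) (lenv_pos h0 h1 n) (2 ^ n) β (by positivity) hβ0 hβ1 with hP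
  set L : ℝ := 2 ^ n with hLdef
  have hL : 0 < L := by positivity
  have hI : E.I = Ico 0 (3 * L) := by
    show Ico 0 (∑ k, lenv α n k) = _
    rw [lenv_sum]
  have hIj : ∀ j, E.Ij j = Ico (lft (lenv α n) j) (lft (lenv α n) j + lenv α n j) := fun j => rfl
  have hmap : E.map = sm (lenv α n) := symIET_map _ _
  obtain ⟨g1, g2, -⟩ := lenv_good hα h0 h1 n
  have hatom : ∀ j, ∀ x ∈ E.Ij j, arc L β x ∈ P.atom j := by
    intro j x hx
    show (arc L β x).re ∈ rho L β '' JJ (lenv α n) j
    rw [arc_re]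
    exact ⟨x, Ij_subset_JJ _ _ hx, rfl⟩
  have hcw := exp_mul_exp_neg β
  have hconj : ∀ x ∈ E.I, arc L β (E.map x) = P.T (arc L β x) := by
    intro x hx
    rw [hI] at hx
    obtain ⟨j, hj⟩ := cover (lenv α n) x hx.1 (by rw [lenv_sum]; exact hx.2)
    rw [P.T_eq j _ (hatom j x hj), hmap]
    show _ = Complex.exp (ang β j * Complex.I) * arc L β x + trn (lenv α n) L β j
    by_cases hj0 : j = 0
    · subst hj0
      have hx2 : x < 2 * L := by
        have := hj.2
        rw [lft_zero] at this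
        simpa [lenv] using this
      rw [sm_lenv_lt h0 h1 n hx.1 hx2, ← hLdef]
      simp only [ang, trn, Fin.val_zero, if_true]
      rcases le_total x L with h | h
      · rw [arc_first hL h, arc_second (by linarith [hx.1]) (by linarith)]
        push_cast
        linear_combination (-(x : ℂ)) * hcw
      · rw [arc_second h hx2.le, arc_third hL (by linarith)]
        push_cast
        linear_combination (-(L : ℂ)) * hcw
    · have hjp : (j : ℕ) ≠ 0 := fun h => hj0 (Fin.ext h)
      have hx2 : 2 * L ≤ x := by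
        have h3 : (0 : Fin (n + 3)) < j := Fin.pos_iff_ne_zero.2 hj0
        have h4 := lft_add_le (lenv_pos h0 h1 n) h3
        rw [lft_zero] at h4
        have h5 : lenv α n 0 = 2 * L := by simp [lenv, hLdef]
        have := hj.1
        linarith
      have hy : sm (lenv α n) x ∈ Ico 0 L := by
        rw [sm_lenv_ge h0 h1 n hx2 hx.2]
        exact (lens_good hα h0 h1 n).1 ⟨by linarith, by linarith [hx.2]⟩
      have hy2 := sm_eq (lenv_pos h0 h1 n) hj
      rw [arc_first hL hy.2.le, arc_third hL hx2, hy2]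
      simp only [ang, trn, hjp, if_false]
      have hw2 : Complex.exp (((2 * Real.pi - 2 * β : ℝ) : ℂ) * Complex.I) =
          Complex.exp (-(β * Complex.I)) ^ 2 := by
        rw [← Complex.exp_nat_mul, Complex.exp_eq_exp_iff_exists_int]
        exact ⟨1, by push_cast; ring⟩
      rw [hw2]
      push_cast
      linear_combination (-(Complex.exp (-(β * Complex.I)) * (x - 2 * L))) * hcw
  refine ⟨⟨?_, ?_, ?_, ?_, ?_, hconj⟩, (continuous_arc L β).continuousOn⟩
  · exact (isEmbedding_arc hL (cos_pos' hβ0 hβ1)).injective.injOn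
  · exact fun _ _ => mem_univ _
  · ext z
    constructor
    · rintro ⟨_, ⟨x, hx, rfl⟩, rfl⟩
      refine ⟨E.map x, ?_, hconj x hx⟩
      rw [hI] at hx ⊢
      rw [hmap]
      exact g1 hx
    · rintro ⟨y, hy, rfl⟩
      rw [hI] at hy
      obtain ⟨x, hx, rfl⟩ := g2 hy
      rw [← hI] at hx
      exact ⟨_, ⟨x, hx, rfl⟩, by rw [← hconj x hx, hmap]⟩
  · intro j
    exact (isEmbedding_arc hL (cos_pos' hβ0 hβ1)).comp Topology.IsEmbedding.subtypeVal
  · refine ⟨Equiv.refl _, ?_⟩
    rintro j _ ⟨x, hx, rfl⟩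
    exact hatom j x hx

/-- On the first interval the arc is not affine. -/
lemma not_affine {L : ℝ} (hL : 0 < L) (hs : Real.sin β ≠ 0) (z v : ℂ)
    (h : ∀ x ∈ Ico (0 : ℝ) (2 * L), arc L β x = z + v * x) : False := by
  have e0 := h 0 ⟨le_rfl, by linarith⟩
  have e1 := h L ⟨hL.le, by linarith⟩
  have e2 := h (3 / 2 * L) ⟨by linarith, by linarith⟩
  rw [arc_first hL hL.le] at e0
  rw [arc_first hL le_rfl] at e1
  rw [arc_second (by linarith) (by linarith)] at e2
  push_cast at e0 e1 e2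
  have hL' : (L : ℂ) ≠ 0 := by exact_mod_cast hL.ne'
  have e3 : (L : ℂ) * (Complex.exp (-(β * Complex.I)) - 1) = 0 := by
    linear_combination (-1 : ℂ) * e0 + 3 * e1 - 2 * e2
  rcases mul_eq_zero.1 e3 with h4 | h4
  · exact hL' h4
  · have h5 := congrArg Complex.im (sub_eq_zero.1 h4)
    rw [← neg_mul, ← Complex.ofReal_neg, Complex.exp_ofReal_mul_I_im] at h5
    simp at h5
    exact hs h5

/-- On the first interval the arc is not a circular arc. -/
lemma not_circular {L : ℝ} (hL : 0 < L) (z : ℂ) (r a b : ℝ)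
    (h : ∀ x ∈ Ico (0 : ℝ) (2 * L),
      arc L β x = z + r * Complex.exp (Complex.I * (a * x + b))) : False := by
  have key : ∀ x ∈ Ico (0 : ℝ) (2 * L), ‖arc L β x - z‖ = |r| := by
    intro x hx
    rw [h x hx, add_sub_cancel_left, norm_mul, Complex.norm_real, Real.norm_eq_abs]
    have : Complex.I * (a * x + b) = ((a * x + b : ℝ) : ℂ) * Complex.I := by push_cast; ring
    rw [this, Complex.norm_exp_ofReal_mul_I, mul_one]
  have e0 := key 0 ⟨le_rfl, by linarith⟩
  have e1 := key (L / 2) ⟨by linarith, by linarith⟩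
  have e2 := key L ⟨hL.le, by linarith⟩
  rw [arc_first hL hL.le] at e0
  rw [arc_first hL (by linarith)] at e1
  rw [arc_first hL le_rfl] at e2
  set w := Complex.exp (-(β * Complex.I)) with hw
  have hnw : ‖w‖ = 1 := by
    rw [hw, ← neg_mul, ← Complex.ofReal_neg, Complex.norm_exp_ofReal_mul_I]
  have hp := parallelogram_law_with_norm ℝ (w * (0 : ℝ) - z) (w * L - z)
  have hs : (w * (0 : ℝ) - z) + (w * L - z) = 2 * (w * ((L / 2 : ℝ) : ℂ) - z) := by
    push_cast; ring
  have hd : (w * (0 : ℝ) - z) - (w * L - z) = -(w * L) := by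
    push_cast; ring
  rw [hs, hd, norm_mul, norm_neg, norm_mul, hnw, Complex.norm_real, e0, e1, e2,
    Real.norm_eq_abs, abs_of_pos hL] at hp
  have hr : |r| * |r| = r ^ 2 := by rw [← pow_two, sq_abs]
  have h2 : ‖(2 : ℂ)‖ = 2 := by norm_num
  rw [h2] at hp
  nlinarith [mul_pos hL hL]

include hβ0 hβ1 in
lemma nontrivial : ¬ IsTrivial (symIET (lenv α n) (lenv_pos h0 h1 n)) (arc (2 ^ n) β) := by
  have hL : (0 : ℝ) < 2 ^ n := by positivity
  have hIj : (symIET (lenv α n) (lenv_pos h0 h1 n)).Ij 0 = Ico 0 (2 * 2 ^ n) := by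
    show Ico (lft (lenv α n) 0) (lft (lenv α n) 0 + lenv α n 0) = _
    rw [lft_zero]
    simp [lenv]
  rintro (⟨z, v, h⟩ | ⟨z, r, a, b, -, h⟩)
  · have hs : Real.sin β ≠ 0 := (Real.sin_pos_of_pos_of_lt_pi hβ0 (by linarith [Real.pi_pos])).ne'
    exact not_affine hL hs (z 0) (v 0) (by rw [← hIj]; exact h 0)
  · exact not_circular hL (z 0) (r 0) (a 0) (b 0) (by rw [← hIj]; exact h 0)

end Main

/-- For every `d ≥ 3` there are a minimal `d`-IET and a `d`-PWI such that the IET has a non-trivial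
continuous embedding into the PWI. Moreover the IET can be taken with the symmetric permutation and
with genuine discontinuities at all `d - 1` interior end points, and the PWI defined on the whole
plane. -/
theorem result : ∀ d : ℕ, 3 ≤ d → ∃ (E : IET d) (P : PWI d) (h : ℝ → ℂ),
    E.IsMinimal ∧ IsContinuousEmbedding E P h ∧ ¬ IsTrivial E h ∧
    E.perm = Fin.revPerm ∧ (∀ j : Fin d, 0 < (j : ℕ) → ¬ ContinuousAt E.map (E.left j)) ∧
    P.X = univ := by
  intro d hd
  obtain ⟨n, rfl⟩ : ∃ n, d = n + 3 := ⟨d - 3, by omega⟩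
  have hα : Irrational (√2 - 1) := by
    simpa using irrational_sqrt_two.sub_natCast 1
  have hs : (1 : ℝ) < √2 := by
    rw [Real.lt_sqrt (by norm_num)]; norm_num
  have hs' : √2 < (2 : ℝ) := by
    rw [Real.sqrt_lt' (by norm_num)]; norm_num
  have h0 : 0 < √2 - 1 := by linarith
  have h1 : √2 - 1 < 1 := by linarith
  have hβ0 : 0 < Real.pi / 4 := by positivity
  have hβ1 : Real.pi / 4 < Real.pi / 2 := by linarith [Real.pi_pos]
  refine ⟨symIET (lenv (√2 - 1) n) (lenv_pos h0 h1 n), _, _, ?_,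
    embedding hα h0 h1 hβ0 hβ1 n, nontrivial h0 h1 hβ0 hβ1 n, rfl, ?_, rfl⟩
  · refine symIET_minimal _ _ ?_
    rw [lenv_sum]
    exact lenv_good hα h0 h1 n
  · exact symIET_disc _ _

end Pool.Agent.Results.MP_b9fb92_an.PolygonalArc
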